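import Pool.Agent.Helper6.CX.Stat

/-!
# Expanding pairs of generators of the alternating groups are abundant

There is an expanding pair for every `n ≥ 5`; in almost every pair of conjugacy classes of `A_n` the
relative positions giving an expanding pair are at least `(n!)^(1-δ)` in number; and the expanding
pairs are at least `|A_n|^(2-δ)` in number.
-/

set_option linter.unusedSectionVars false

namespace Pool.Agent.Results.MP_75608d_al.AbundantPairs

open Matrix Filter Topology Equiv Pool.Agent.Helper15.An Pool.Agent.Helper15.Pair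

variable {n k : ℕ}

/-- Transition matrix of the random walk on `A_n` whose steps multiply on the right by a uniformly
chosen member of the multiset `x_1, x_1⁻¹, ..., x_k, x_k⁻¹`:
`(P f) g = (1 / 2k) * ∑ i, (f (g * x i) + f (g * (x i)⁻¹))`. -/
noncomputable def transition (x : Fin k → alternatingGroup (Fin n)) :
    Matrix (alternatingGroup (Fin n)) (alternatingGroup (Fin n)) ℝ :=
  fun g h => (2 * (k : ℝ))⁻¹ *
    ∑ i, ((if h = g * x i then (1 : ℝ) else 0) + (if h = g * (x i)⁻¹ then (1 : ℝ) else 0))

theorem transition_isHermitian (x : Fin k → alternatingGroup (Fin n)) :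
    (transition x).IsHermitian := by
  ext g h
  rw [conjTranspose_apply]
  unfold transition
  simp only [star_trivial]
  congr 1
  refine Finset.sum_congr rfl fun i _ => ?_
  rw [add_comm]
  congr 1
  · have : g = h * (x i)⁻¹ ↔ h = g * x i := by
      rw [eq_mul_inv_iff_mul_eq]; exact eq_comm
    simp only [this]
  · have : g = h * x i ↔ h = g * (x i)⁻¹ := by
      rw [eq_mul_inv_iff_mul_eq]; exact eq_comm
    simp only [this]

/-- The second largest eigenvalue, counted with multiplicity, of the transition matrix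
(`eigenvalues₀` lists the eigenvalues in decreasing order; the value `1` for the trivial group
is a dummy value). -/
noncomputable def secondEigenvalue (x : Fin k → alternatingGroup (Fin n)) : ℝ :=
  if h : 1 < Fintype.card (alternatingGroup (Fin n)) then
    (transition_isHermitian x).eigenvalues₀ ⟨1, h⟩
  else 1

/-- `x_1, ..., x_k` generate `A_n` and the spectral gap of their random walk is at least `ε`. -/
def IsExpanding (ε : ℝ) (x : Fin k → alternatingGroup (Fin n)) : Prop :=
  Subgroup.closure (Set.range x) = ⊤ ∧ ε ≤ 1 - secondEigenvalue x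

theorem transition_mulVec (x : Fin k → alternatingGroup (Fin n))
    (f : alternatingGroup (Fin n) → ℝ) (g : alternatingGroup (Fin n)) :
    (transition x *ᵥ f) g = (2 * (k : ℝ))⁻¹ * ∑ i, (f (g * x i) + f (g * (x i)⁻¹)) := by
  have h1 : (transition x *ᵥ f) g = ∑ h, transition x g h * f h := rfl
  rw [h1]
  unfold transition
  simp_rw [mul_assoc]
  rw [← Finset.mul_sum]
  congr 1
  simp_rw [Finset.sum_mul]
  rw [Finset.sum_comm]
  refine Finset.sum_congr rfl fun i _ => ?_
  simp_rw [add_mul]
  rw [Finset.sum_add_distrib]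
  simp

theorem isExpanding_of_gap (hn : 4 ≤ n) (hk : 0 < k) (ε : ℝ) (hε : 0 < ε)
    (x : Fin k → alternatingGroup (Fin n))
    (hc : ∀ f : alternatingGroup (Fin n) → ℝ, f ≠ 0 → ∑ g, f g = 0 → ∀ a : ℝ, 1 - ε < a →
      transition x *ᵥ f ≠ a • f) : IsExpanding ε x := by
  have hk' : (2 * (k : ℝ)) ≠ 0 := by positivity
  constructor
  · by_contra hne
    set H := Subgroup.closure (Set.range x) with hH
    classical
    set c : ℝ := ((Finset.univ.filter fun g : alternatingGroup (Fin n) => g ∈ H).card : ℝ) /
      Fintype.card (alternatingGroup (Fin n)) with hcdef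
    have hGpos : (0 : ℝ) < Fintype.card (alternatingGroup (Fin n)) := by
      exact_mod_cast Fintype.card_pos
    have hcpos : 0 < c := by
      have : 0 < (Finset.univ.filter fun g : alternatingGroup (Fin n) => g ∈ H).card :=
        Finset.card_pos.2 ⟨1, by simp [H.one_mem]⟩
      have h1 : (0 : ℝ) <
          ((Finset.univ.filter fun g : alternatingGroup (Fin n) => g ∈ H).card : ℝ) := by
        exact_mod_cast this
      positivity
    obtain ⟨g0, hg0⟩ : ∃ g, g ∉ H := by
      by_contra hall
      push Not at hall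
      exact hne (eq_top_iff.2 fun g _ => hall g)
    have hmem : ∀ i, x i ∈ H := fun i => Subgroup.subset_closure ⟨i, rfl⟩
    refine hc (fun g => (if g ∈ H then (1 : ℝ) else 0) - c) ?_ ?_ 1 (by linarith) ?_
    · intro h
      have h1 := congrFun h g0
      simp only [if_neg hg0, Pi.zero_apply, zero_sub, neg_eq_zero] at h1
      exact hcpos.ne' h1
    · rw [Finset.sum_sub_distrib, Finset.sum_const, Finset.card_univ, nsmul_eq_mul, hcdef,
        mul_div_cancel₀ _ hGpos.ne', Finset.sum_boole, sub_self]
    · ext g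
      rw [transition_mulVec, one_smul]
      have h1 : ∀ i, ((if g * x i ∈ H then (1 : ℝ) else 0) - c) +
          ((if g * (x i)⁻¹ ∈ H then (1 : ℝ) else 0) - c) =
          2 * ((if g ∈ H then (1 : ℝ) else 0) - c) := by
        intro i
        have h2 : g * x i ∈ H ↔ g ∈ H := H.mul_mem_cancel_right (hmem i)
        have h3 : g * (x i)⁻¹ ∈ H ↔ g ∈ H := H.mul_mem_cancel_right (H.inv_mem (hmem i))
        simp only [h2, h3]
        ring
      simp_rw [h1]
      rw [Finset.sum_const, Finset.card_univ, Fintype.card_fin, nsmul_eq_mul]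
      field_simp
  · unfold secondEigenvalue
    have hcard : 1 < Fintype.card (alternatingGroup (Fin n)) := by
      have h1 : Nontrivial (Fin n) := Fin.nontrivial_iff_two_le.2 (by omega)
      have h2 := two_mul_card_alternatingGroup (α := Fin n)
      rw [Fintype.card_perm, Fintype.card_fin] at h2
      have h3 : 4 ≤ n.factorial := hn.trans (Nat.self_le_factorial n)
      omega
    rw [dif_pos hcard]
    have h1 := second_eig_le (transition x) (transition_isHermitian x) hcard (by
      ext g
      rw [transition_mulVec]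
      simp only [Finset.sum_const, Finset.card_univ, Fintype.card_fin, nsmul_eq_mul]
      field_simp
      norm_num) (1 - ε) hc
    linarith

/-- right regular representation of a finite group -/
noncomputable def regRep (G : Type) [Group G] [Fintype G] :
    Representation ℂ G (EuclideanSpace ℂ G) where
  toFun g :=
    { toFun := fun F => WithLp.toLp 2 fun h => F.ofLp (h * g)
      map_add' := fun _ _ => rfl
      map_smul' := fun _ _ => rfl }
  map_one' := by
    ext F h
    simp
  map_mul' a b := by
    refine LinearMap.ext fun F => ?_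
    ext h
    change F.ofLp (h * (a * b)) = F.ofLp (h * a * b)
    rw [mul_assoc]

theorem regRep_apply {G : Type} [Group G] [Fintype G] (g h : G) (F : EuclideanSpace ℂ G) :
    (regRep G g F).ofLp h = F.ofLp (h * g) := rfl

theorem regRep_norm {G : Type} [Group G] [Fintype G] (g : G) (F : EuclideanSpace ℂ G) :
    ‖regRep G g F‖ = ‖F‖ := by
  rw [EuclideanSpace.norm_eq, EuclideanSpace.norm_eq]
  congr 1
  simp_rw [regRep_apply]
  exact Equiv.sum_comp (Equiv.mulRight g) (fun h => ‖F.ofLp h‖ ^ 2)

/-- squared displacement of a real function -/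
theorem disp_sq {G : Type} [Group G] [Fintype G] (f : G → ℝ) (g : G) :
    ‖regRep G g (WithLp.toLp 2 fun h => (f h : ℂ)) - WithLp.toLp 2 fun h => (f h : ℂ)‖ ^ 2 =
      2 * (∑ h, f h ^ 2) - ∑ h, f h * (f (h * g) + f (h * g⁻¹)) := by
  rw [EuclideanSpace.norm_eq, Real.sq_sqrt (Finset.sum_nonneg fun _ _ => by positivity)]
  have h1 : ∀ h, ‖(regRep G g (WithLp.toLp 2 fun h => (f h : ℂ)) -
      WithLp.toLp 2 fun h => (f h : ℂ)).ofLp h‖ ^ 2 =
      f (h * g) ^ 2 + f h ^ 2 - (f h * f (h * g) + f h * f (h * g)) := by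
    intro h
    have h2 : (regRep G g (WithLp.toLp 2 fun h => (f h : ℂ)) -
      WithLp.toLp 2 fun h => (f h : ℂ)).ofLp h = ((f (h * g) - f h : ℝ) : ℂ) := by
      push_cast
      rfl
    rw [h2, Complex.norm_real, Real.norm_eq_abs, sq_abs]
    ring
  simp_rw [h1]
  rw [Finset.sum_sub_distrib, Finset.sum_add_distrib, Finset.sum_add_distrib]
  have h3 : ∑ h, f (h * g) ^ 2 = ∑ h, f h ^ 2 :=
    Equiv.sum_comp (Equiv.mulRight g) (fun h => f h ^ 2)
  have h4 : ∑ h, f h * f (h * g⁻¹) = ∑ h, f h * f (h * g) := by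
    rw [← Equiv.sum_comp (Equiv.mulRight g) (fun h => f h * f (h * g⁻¹))]
    refine Finset.sum_congr rfl fun h _ => ?_
    rw [Equiv.coe_mulRight, mul_inv_cancel_right, mul_comm]
  simp_rw [mul_add]
  rw [Finset.sum_add_distrib, h3, h4]
  ring

/-- the Kazhdan inequality gives the spectral gap -/
theorem expanding_of_kaz (hn : 5 ≤ n) {C : ℝ} (hC : 0 < C) (x y : alternatingGroup (Fin n))
    (hxy : Pool.Agent.Helper6.CX.KazC C x y) : IsExpanding (1 / (8 * C ^ 2)) ![x, y] := by
  refine isExpanding_of_gap (by omega) (by norm_num) _ (by positivity) _ ?_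
  intro f hf hsum a ha hPf
  set F : EuclideanSpace ℂ (alternatingGroup (Fin n)) := WithLp.toLp 2 fun h => (f h : ℂ) with hF
  set S : ℝ := ∑ h, f h ^ 2 with hS
  have hSF : ‖F‖ ^ 2 = S := by
    rw [EuclideanSpace.norm_eq, Real.sq_sqrt (Finset.sum_nonneg fun _ _ => by positivity), hS]
    refine Finset.sum_congr rfl fun h _ => ?_
    have : F.ofLp h = (f h : ℂ) := rfl
    rw [this, Complex.norm_real, Real.norm_eq_abs, sq_abs]
  have hSpos : 0 < S := by
    obtain ⟨g, hg⟩ : ∃ g, f g ≠ 0 := by
      by_contra hall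
      push Not at hall
      exact hf (funext hall)
    have h1 : f g ^ 2 ≤ S := Finset.single_le_sum (f := fun h => f h ^ 2)
      (fun _ _ => sq_nonneg _) (Finset.mem_univ g)
    have h2 : 0 < f g ^ 2 := by positivity
    linarith
  -- the Kazhdan inequality for the regular representation
  have h1 := hxy (EuclideanSpace ℂ (alternatingGroup (Fin n)))
    (regRep (alternatingGroup (Fin n))) regRep_norm F
  set R := regRep (alternatingGroup (Fin n)) with hR
  set δ := ‖R x F - F‖ + ‖R y F - F‖ with hδ
  set cG := Fintype.card (alternatingGroup (Fin n)) with hcG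
  have hcardpos : (0 : ℝ) < cG := by
    rw [hcG]
    exact_mod_cast Fintype.card_pos
  have h2 : ‖F‖ ≤ C * δ := by
    have h3 : ∑ g, R g F = 0 := by
      ext h
      have h4 : (∑ g, R g F).ofLp h = ∑ g, ((f (h * g) : ℝ) : ℂ) := by
        simp [hF, hR, regRep_apply]
      rw [h4]
      have h5 : ∑ g, f (h * g) = 0 := by
        rw [← hsum]
        exact Equiv.sum_comp (Equiv.mulLeft h) f
      rw [← Complex.ofReal_sum, h5]
      simp
    have h4 : (cG : ℂ) • F = - ∑ g, (R g F - F) := by
      rw [Finset.sum_sub_distrib, h3, Finset.sum_const, Finset.card_univ,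
        ← Nat.cast_smul_eq_nsmul ℂ, ← hcG, zero_sub, neg_neg]
    have h5 : (cG : ℝ) * ‖F‖ ≤ cG * (C * δ) := by
      calc (cG : ℝ) * ‖F‖ = ‖(cG : ℂ) • F‖ := by
            rw [norm_smul, Complex.norm_natCast]
        _ = ‖∑ g, (R g F - F)‖ := by rw [h4, norm_neg]
        _ ≤ ∑ _g : alternatingGroup (Fin n), C * δ :=
            (norm_sum_le _ _).trans (Finset.sum_le_sum fun g _ => h1 g)
        _ = _ := by rw [Finset.sum_const, Finset.card_univ, nsmul_eq_mul]
    exact le_of_mul_le_mul_left h5 hcardpos
  -- the displacement of an eigenfunction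
  have h3 : ‖R x F - F‖ ^ 2 + ‖R y F - F‖ ^ 2 = 4 * (1 - a) * S := by
    have h4 : ∑ h, f h * (transition ![x, y] *ᵥ f) h = a * S := by
      rw [hPf, hS, Finset.mul_sum]
      refine Finset.sum_congr rfl fun h _ => ?_
      rw [Pi.smul_apply, smul_eq_mul]
      ring
    have h5 : ∀ h, f h * (transition ![x, y] *ᵥ f) h =
        1 / 4 * (f h * (f (h * x) + f (h * x⁻¹)) + f h * (f (h * y) + f (h * y⁻¹))) := by
      intro h
      rw [transition_mulVec, Fin.sum_univ_two]
      simp
      ring
    simp_rw [h5] at h4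
    rw [← Finset.mul_sum, Finset.sum_add_distrib] at h4
    rw [hF, hR, disp_sq, disp_sq, ← hS]
    linarith
  have h4 : δ ^ 2 ≤ 8 * (1 - a) * S := by
    have : δ ^ 2 ≤ 2 * (‖R x F - F‖ ^ 2 + ‖R y F - F‖ ^ 2) := by
      rw [hδ]
      nlinarith [sq_nonneg (‖R x F - F‖ - ‖R y F - F‖)]
    rw [h3] at this
    linarith
  have h5 : S ≤ C ^ 2 * δ ^ 2 := by
    rw [← hSF, ← mul_pow]
    gcongr
  have h6 : (1 - a) < 1 / (8 * C ^ 2) := by linarith
  have h7 : 8 * C ^ 2 * (1 - a) < 1 := by
    rw [lt_div_iff₀ (by positivity)] at h6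
    linarith
  have h8 : S ≤ C ^ 2 * (8 * (1 - a) * S) := h5.trans (by gcongr)
  have h9 : C ^ 2 * (8 * (1 - a) * S) < 1 * S := by
    have : C ^ 2 * (8 * (1 - a) * S) = (8 * C ^ 2 * (1 - a)) * S := by ring
    rw [this]
    gcongr
  linarith

/-- Number of cycles of `x` on `{0, ..., n-1}`, fixed points included. -/
noncomputable def cycles (x : alternatingGroup (Fin n)) : ℕ :=
  Nat.card (Quotient (Perm.SameCycle.setoid (x : Perm (Fin n))))

/-- Number of the `g` in the symmetric group for which `{x, g y g⁻¹}` is an `ε`-expanding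
generating set of `A_n`. -/
noncomputable def goodConjugators (ε : ℝ) (x y : alternatingGroup (Fin n)) : ℕ :=
  Nat.card {g : Perm (Fin n) // IsExpanding ε ![x, MulAut.conjNormal g y]}

/-- (1) Every `A_n`, `n ≥ 5`, has an `ε₀`-expanding pair of generators.
(2) For every `δ > 0` there are `ε > 0` and `K` such that for all large `n`:
if `x, y` in `A_n` have at most `√(n/K)` cycles each, then `{x, g y g⁻¹}` is `ε`-expanding for at
least `(n!)^(1-δ)` elements `g` of the symmetric group;
(3) the proportion of the pairs `(x, y)` in `A_n × A_n` for which this holds tends to one;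
(4) at least `|A_n|^(2-δ)` of the pairs in `A_n × A_n` are `ε`-expanding. -/
theorem result :
    (∃ ε : ℝ, 0 < ε ∧ ∀ n : ℕ, 5 ≤ n →
      ∃ x : Fin 2 → alternatingGroup (Fin n), IsExpanding ε x) ∧
    ∀ δ : ℝ, 0 < δ → ∃ ε : ℝ, 0 < ε ∧ ∃ K : ℕ, 0 < K ∧
      (∀ᶠ n : ℕ in atTop, ∀ x y : alternatingGroup (Fin n),
        K * cycles x ^ 2 ≤ n → K * cycles y ^ 2 ≤ n →
        (n.factorial : ℝ) ^ (1 - δ) ≤ goodConjugators ε x y) ∧
      Tendsto (fun n : ℕ =>
        (Nat.card {p : alternatingGroup (Fin n) × alternatingGroup (Fin n) //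
          (n.factorial : ℝ) ^ (1 - δ) ≤ goodConjugators ε p.1 p.2} : ℝ) /
        Nat.card (alternatingGroup (Fin n) × alternatingGroup (Fin n))) atTop (𝓝 1) ∧
      ∀ᶠ n : ℕ in atTop, (Nat.card (alternatingGroup (Fin n)) : ℝ) ^ (2 - δ) ≤
        Nat.card {x : Fin 2 → alternatingGroup (Fin n) // IsExpanding ε x} := by
  constructor
  · obtain ⟨C, hC, hkaz⟩ := kaz_all
    refine ⟨1 / (8 * C ^ 2), by positivity, fun n hn => ?_⟩
    obtain ⟨x, y, hxy⟩ := hkaz n hn
    exact ⟨![x, y], expanding_of_kaz hn hC x y hxy⟩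
  · intro δ hδ
    set δ' := min (δ / 2) (1 / 2) with hδ'
    have hδ'0 : 0 < δ' := lt_min (half_pos hδ) (by norm_num)
    have hδ'1 : δ' < 1 := (min_le_right _ _).trans_lt (by norm_num)
    obtain ⟨C, hC, K₀, hK⟩ := Pool.Agent.Helper6.CX.many δ' hδ'0 hδ'1
    set ε := 1 / (8 * C ^ 2) with hε
    have hcyc : ∀ᶠ n : ℕ in atTop, ∀ x y : alternatingGroup (Fin n),
        (K₀ + 1) * cycles x ^ 2 ≤ n → (K₀ + 1) * cycles y ^ 2 ≤ n →
        (n.factorial : ℝ) ^ (1 - δ / 2) ≤ goodConjugators ε x y := by
      filter_upwards [hK, eventually_ge_atTop 5] with n hn1 hn2 x y hx hy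
      have hle : ∀ w : alternatingGroup (Fin n), (K₀ + 1) * cycles w ^ 2 ≤ n →
          K₀ * (Pool.Agent.Helper6.CX.cyc (w : Perm (Fin n)) *
            Pool.Agent.Helper6.CX.cyc (w : Perm (Fin n))) ≤ n := by
        intro w hw
        refine le_trans ?_ hw
        rw [sq]
        exact Nat.mul_le_mul_right _ (Nat.le_succ K₀)
      have h1 := hn1 x y (hle x hx) (hle y hy)
      have hfac : (1 : ℝ) ≤ n.factorial := by exact_mod_cast n.factorial_pos
      calc (n.factorial : ℝ) ^ (1 - δ / 2) ≤ (n.factorial : ℝ) ^ (1 - δ') :=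
            Real.rpow_le_rpow_of_exponent_le hfac (by have := min_le_left (δ / 2) (1 / 2); linarith)
        _ ≤ _ := h1
        _ ≤ goodConjugators ε x y := by
          exact_mod_cast Nat.card_le_card_of_injective
            (fun g : {g : Perm (Fin n) //
                Pool.Agent.Helper6.CX.KazC C x (MulAut.conjNormal g y)} =>
              (⟨g.1, expanding_of_kaz hn2 hC x _ g.2⟩ :
                {g : Perm (Fin n) // IsExpanding ε ![x, MulAut.conjNormal g y]}))
            (fun g g' h => Subtype.ext (congrArg (fun w => w.1) h))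
    have hcyc2 : ∀ᶠ n : ℕ in atTop, ∀ x y : alternatingGroup (Fin n),
        (K₀ + 1) * cycles x ^ 2 ≤ n → (K₀ + 1) * cycles y ^ 2 ≤ n →
        (n.factorial : ℝ) ^ (1 - δ) ≤ goodConjugators ε x y := by
      filter_upwards [hcyc] with n hn1 x y hx hy
      refine le_trans ?_ (hn1 x y hx hy)
      have hfac : (1 : ℝ) ≤ n.factorial := by exact_mod_cast n.factorial_pos
      exact Real.rpow_le_rpow_of_exponent_le hfac (by linarith)
    refine ⟨ε, by positivity, K₀ + 1, Nat.succ_pos _, hcyc2, ?_, ?_⟩
    · refine tendsto_of_tendsto_of_tendsto_of_le_of_le'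
        (Pool.Agent.Helper6.CX.good_tendsto (K₀ + 1) (Nat.succ_pos _)) tendsto_const_nhds ?_ ?_
      · filter_upwards [hcyc2] with n hn1
        refine div_le_div_of_nonneg_right ?_ (Nat.cast_nonneg _)
        exact_mod_cast Nat.card_le_card_of_injective
          (fun p : {p // Pool.Agent.Helper6.CX.Good (K₀ + 1) n p} =>
            (⟨p.1, hn1 p.1.1 p.1.2 (by rw [sq]; exact p.2.1) (by rw [sq]; exact p.2.2)⟩ :
            {p : alternatingGroup (Fin n) × alternatingGroup (Fin n) //
              (n.factorial : ℝ) ^ (1 - δ) ≤ goodConjugators ε p.1 p.2}))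
          (fun p p' h => Subtype.ext (congrArg (fun w => w.1) h))
      · refine Eventually.of_forall fun n => ?_
        refine div_le_one_of_le₀ ?_ (Nat.cast_nonneg _)
        exact_mod_cast Nat.card_le_card_of_injective Subtype.val Subtype.val_injective
    · have h1 := Pool.Agent.Helper6.CX.pairs_count
        (fun n x y => IsExpanding (n := n) ε ![x, y]) (K₀ + 1) (Nat.succ_pos _) δ hδ (by
          filter_upwards [hcyc] with n hn1 p hp
          exact hn1 p.1 p.2 (by rw [sq]; exact hp.1) (by rw [sq]; exact hp.2))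
      filter_upwards [h1] with n hn1
      refine hn1.trans ?_
      exact_mod_cast Nat.card_le_card_of_injective
        (fun p : {p : alternatingGroup (Fin n) × alternatingGroup (Fin n) //
            IsExpanding ε ![p.1, p.2]} =>
          (⟨![p.1.1, p.1.2], p.2⟩ : {x : Fin 2 → alternatingGroup (Fin n) // IsExpanding ε x}))
        (fun p p' h => by
          have h2 : ![p.1.1, p.1.2] = ![p'.1.1, p'.1.2] := congrArg (fun w => w.1) h
          have h3 := congrFun h2 0
          have h4 := congrFun h2 1
          exact Subtype.ext (Prod.ext h3 h4))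

end Pool.Agent.Results.MP_75608d_al.AbundantPairs
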