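import Pool.Agent.Helper1.TP.MidPart
import Pool.Agent.Helper6.E.Eig

/-!
# A bounded number of random elements of `A_n` is an expanding generating set
-/

set_option linter.unusedSectionVars false

namespace Pool.Agent.Results.MP_75608d_al.ConstantGap

open Matrix Filter Topology Pool.Agent.Helper15.An

variable {n k : ℕ}

/-- Transition matrix of the random walk on `A_n` whose steps multiply on the right by a uniformly
chosen member of the multiset `x_1, x_1⁻¹, ..., x_k, x_k⁻¹`:
`(P f) g = (1 / 2k) * ∑ i, (f (g * x i) + f (g * (x i)⁻¹))`. -/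
noncomputable def transition (x : Fin k → alternatingGroup (Fin n)) :
    Matrix (alternatingGroup (Fin n)) (alternatingGroup (Fin n)) ℝ :=
  fun g h => (2 * (k : ℝ))⁻¹ *
    ∑ i, ((if h = g * x i then (1 : ℝ) else 0) + (if h = g * (x i)⁻¹ then (1 : ℝ) else 0))

theorem transition_isHermitian (x : Fin k → alternatingGroup (Fin n)) :
    (transition x).IsHermitian := by
  ext g h
  rw [conjTranspose_apply]
  unfold transition
  simp only [star_trivial]
  congr 1
  refine Finset.sum_congr rfl fun i _ => ?_
  rw [add_comm]
  congr 1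
  · have : g = h * (x i)⁻¹ ↔ h = g * x i := by
      rw [eq_mul_inv_iff_mul_eq]; exact eq_comm
    simp only [this]
  · have : g = h * x i ↔ h = g * (x i)⁻¹ := by
      rw [eq_mul_inv_iff_mul_eq]; exact eq_comm
    simp only [this]

/-- The second largest eigenvalue, counted with multiplicity, of the transition matrix
(`eigenvalues₀` lists the eigenvalues in decreasing order; the value `1` for the trivial group
is a dummy value). -/
noncomputable def secondEigenvalue (x : Fin k → alternatingGroup (Fin n)) : ℝ :=
  if h : 1 < Fintype.card (alternatingGroup (Fin n)) then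
    (transition_isHermitian x).eigenvalues₀ ⟨1, h⟩
  else 1

/-- `x_1, ..., x_k` generate `A_n` and the spectral gap of their random walk is at least `ε`. -/
def IsExpanding (ε : ℝ) (x : Fin k → alternatingGroup (Fin n)) : Prop :=
  Subgroup.closure (Set.range x) = ⊤ ∧ ε ≤ 1 - secondEigenvalue x

theorem transition_mulVec (x : Fin k → alternatingGroup (Fin n))
    (f : alternatingGroup (Fin n) → ℝ) (g : alternatingGroup (Fin n)) :
    (transition x *ᵥ f) g = (2 * (k : ℝ))⁻¹ * ∑ i, (f (g * x i) + f (g * (x i)⁻¹)) := by
  have h1 : (transition x *ᵥ f) g = ∑ h, transition x g h * f h := rfl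
  rw [h1]
  unfold transition
  simp_rw [mul_assoc]
  rw [← Finset.mul_sum]
  congr 1
  simp_rw [Finset.sum_mul]
  rw [Finset.sum_comm]
  refine Finset.sum_congr rfl fun i _ => ?_
  simp_rw [add_mul]
  rw [Finset.sum_add_distrib]
  simp

theorem isExpanding_of_good (hn : 4 ≤ n) (hk : 0 < k) (F : PW (Equiv.Perm (Fin n))) {ε : ℝ}
    (hε : 0 < ε) (x : Fin k → alternatingGroup (Fin n)) (hgood : Good F (tupW x) n ε) :
    IsExpanding ε x := by
  have hk' : (2 * (k : ℝ)) ≠ 0 := by positivity
  have hc : ∀ f : alternatingGroup (Fin n) → ℝ, f ≠ 0 → ∑ g, f g = 0 → ∀ a : ℝ, 1 - ε < a →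
      transition x *ᵥ f ≠ a • f := by
    intro f hf hs a ha hPf
    refine Pool.Agent.Helper6.E.eig_claim F x ε hgood f hf hs a ha fun g => ?_
    rw [← transition_mulVec, hPf]
    rfl
  constructor
  · by_contra hne
    set H := Subgroup.closure (Set.range x) with hH
    classical
    set c : ℝ := ((Finset.univ.filter fun g : alternatingGroup (Fin n) => g ∈ H).card : ℝ) /
      Fintype.card (alternatingGroup (Fin n)) with hcdef
    have hGpos : (0 : ℝ) < Fintype.card (alternatingGroup (Fin n)) := by
      exact_mod_cast Fintype.card_pos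
    have hcpos : 0 < c := by
      have : 0 < (Finset.univ.filter fun g : alternatingGroup (Fin n) => g ∈ H).card :=
        Finset.card_pos.2 ⟨1, by simp [H.one_mem]⟩
      have h1 : (0 : ℝ) <
          ((Finset.univ.filter fun g : alternatingGroup (Fin n) => g ∈ H).card : ℝ) := by
        exact_mod_cast this
      positivity
    obtain ⟨g0, hg0⟩ : ∃ g, g ∉ H := by
      by_contra hall
      push Not at hall
      exact hne (eq_top_iff.2 fun g _ => hall g)
    have hmem : ∀ i, x i ∈ H := fun i => Subgroup.subset_closure ⟨i, rfl⟩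
    refine hc (fun g => (if g ∈ H then (1 : ℝ) else 0) - c) ?_ ?_ 1 (by linarith) ?_
    · intro h
      have h1 := congrFun h g0
      simp only [if_neg hg0, Pi.zero_apply, zero_sub, neg_eq_zero] at h1
      exact hcpos.ne' h1
    · rw [Finset.sum_sub_distrib, Finset.sum_const, Finset.card_univ, nsmul_eq_mul, hcdef,
        mul_div_cancel₀ _ hGpos.ne', Finset.sum_boole, sub_self]
    · ext g
      rw [transition_mulVec, one_smul]
      have h1 : ∀ i, ((if g * x i ∈ H then (1 : ℝ) else 0) - c) +
          ((if g * (x i)⁻¹ ∈ H then (1 : ℝ) else 0) - c) =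
          2 * ((if g ∈ H then (1 : ℝ) else 0) - c) := by
        intro i
        have h2 : g * x i ∈ H ↔ g ∈ H := H.mul_mem_cancel_right (hmem i)
        have h3 : g * (x i)⁻¹ ∈ H ↔ g ∈ H := H.mul_mem_cancel_right (H.inv_mem (hmem i))
        simp only [h2, h3]
        ring
      simp_rw [h1]
      rw [Finset.sum_const, Finset.card_univ, Fintype.card_fin, nsmul_eq_mul]
      field_simp
  · unfold secondEigenvalue
    have hcard : 1 < Fintype.card (alternatingGroup (Fin n)) := by
      have h1 : Nontrivial (Fin n) := Fin.nontrivial_iff_two_le.2 (by omega)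
      have h2 := two_mul_card_alternatingGroup (α := Fin n)
      rw [Fintype.card_perm, Fintype.card_fin] at h2
      have h3 : 4 ≤ n.factorial := hn.trans (Nat.self_le_factorial n)
      omega
    rw [dif_pos hcard]
    have h1 := second_eig_le (transition x) (transition_isHermitian x) hcard (by
      ext g
      rw [transition_mulVec]
      simp only [Finset.sum_const, Finset.card_univ, Fintype.card_fin, nsmul_eq_mul]
      field_simp
      norm_num) (1 - ε) hc
    linarith

theorem whp_le_one (p : (Fin k → alternatingGroup (Fin n)) → Prop) :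
    (Nat.card {x // p x} : ℝ) / Nat.card (Fin k → alternatingGroup (Fin n)) ≤ 1 := by
  apply div_le_one_of_le₀ _ (Nat.cast_nonneg _)
  exact_mod_cast Nat.card_le_card_of_injective _ Subtype.val_injective

theorem whp_mono {p q : (Fin k → alternatingGroup (Fin n)) → Prop} (h : ∀ x, p x → q x) :
    (Nat.card {x // p x} : ℝ) / Nat.card (Fin k → alternatingGroup (Fin n)) ≤
      (Nat.card {x // q x} : ℝ) / Nat.card (Fin k → alternatingGroup (Fin n)) := by
  refine div_le_div_of_nonneg_right ?_ (Nat.cast_nonneg _)
  refine Nat.cast_le.2 (Nat.card_le_card_of_injective (fun x => ⟨x.1, h _ x.2⟩) ?_)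
  intro a b hab
  exact Subtype.ext (by simpa using congrArg Subtype.val hab)

/-- There is `K ≥ 2` such that for every fixed `k ≥ K` there is `ε > 0` such that the probability
that `k` independent uniformly random elements `x_1, ..., x_k` of `A_n` generate `A_n` and have
spectral gap `1 - λ₂ ≥ ε` tends to one as `n → ∞`. -/
theorem result : ∃ K : ℕ, 2 ≤ K ∧ ∀ k : ℕ, K ≤ k → ∃ ε : ℝ, 0 < ε ∧
    Tendsto (fun n : ℕ =>
      (Nat.card {x : Fin k → alternatingGroup (Fin n) // IsExpanding ε x} : ℝ) /
        Nat.card (Fin k → alternatingGroup (Fin n))) atTop (𝓝 1) := by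
  obtain ⟨K, hK, h⟩ := Pool.Agent.Helper1.TP.s_end
  refine ⟨K, hK, fun k hk => ?_⟩
  obtain ⟨ε, hε, ht⟩ := h k hk
  refine ⟨ε, hε, tendsto_of_tendsto_of_tendsto_of_le_of_le' ht tendsto_const_nhds ?_
    (Eventually.of_forall fun n => whp_le_one _)⟩
  filter_upwards [eventually_ge_atTop 4] with n hn
  exact whp_mono fun x hx => isExpanding_of_good hn (by omega) _ hε x hx

end Pool.Agent.Results.MP_75608d_al.ConstantGap
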