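import Pool.Agent.Helper6.GP.Assembly
import Pool.Agent.Helper6.GP.SmallMain
import Pool.Agent.Helper6.E.Eig

/-!
# Expansion and diameter of the Cayley graph of `A_n` with respect to `k` random elements,
for every fixed `k ≥ 2`
-/

set_option linter.unusedSectionVars false

namespace Pool.Agent.Results.MP_75608d_al.ExpansionProfile

open Matrix Filter Topology Pool.Agent.Helper15.An

variable {n k : ℕ}

/-- Transition matrix of the random walk on `A_n` whose steps multiply on the right by a uniformly
chosen member of the multiset `x_1, x_1⁻¹, ..., x_k, x_k⁻¹`: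
`(P f) g = (1 / 2k) * ∑ i, (f (g * x i) + f (g * (x i)⁻¹))`. -/
noncomputable def transition (x : Fin k → alternatingGroup (Fin n)) :
    Matrix (alternatingGroup (Fin n)) (alternatingGroup (Fin n)) ℝ :=
  fun g h => (2 * (k : ℝ))⁻¹ *
    ∑ i, ((if h = g * x i then (1 : ℝ) else 0) + (if h = g * (x i)⁻¹ then (1 : ℝ) else 0))

theorem transition_isHermitian (x : Fin k → alternatingGroup (Fin n)) :
    (transition x).IsHermitian := by
  ext g h
  rw [conjTranspose_apply]
  unfold transition
  simp only [star_trivial]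
  congr 1
  refine Finset.sum_congr rfl fun i _ => ?_
  rw [add_comm]
  congr 1
  · have : g = h * (x i)⁻¹ ↔ h = g * x i := by
      rw [eq_mul_inv_iff_mul_eq]; exact eq_comm
    simp only [this]
  · have : g = h * x i ↔ h = g * (x i)⁻¹ := by
      rw [eq_mul_inv_iff_mul_eq]; exact eq_comm
    simp only [this]

/-- The second largest eigenvalue, counted with multiplicity, of the transition matrix
(`eigenvalues₀` lists the eigenvalues in decreasing order; the value `1` for the trivial group
is a dummy value). -/
noncomputable def secondEigenvalue (x : Fin k → alternatingGroup (Fin n)) : ℝ :=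
  if h : 1 < Fintype.card (alternatingGroup (Fin n)) then
    (transition_isHermitian x).eigenvalues₀ ⟨1, h⟩
  else 1

/-- `x_1, ..., x_k` generate `A_n` and the spectral gap of their random walk is at least `ε`. -/
def IsExpanding (ε : ℝ) (x : Fin k → alternatingGroup (Fin n)) : Prop :=
  Subgroup.closure (Set.range x) = ⊤ ∧ ε ≤ 1 - secondEigenvalue x

theorem transition_mulVec (x : Fin k → alternatingGroup (Fin n))
    (f : alternatingGroup (Fin n) → ℝ) (g : alternatingGroup (Fin n)) :
    (transition x *ᵥ f) g = (2 * (k : ℝ))⁻¹ * ∑ i, (f (g * x i) + f (g * (x i)⁻¹)) := by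
  have h1 : (transition x *ᵥ f) g = ∑ h, transition x g h * f h := rfl
  rw [h1]
  unfold transition
  simp_rw [mul_assoc]
  rw [← Finset.mul_sum]
  congr 1
  simp_rw [Finset.sum_mul]
  rw [Finset.sum_comm]
  refine Finset.sum_congr rfl fun i _ => ?_
  simp_rw [add_mul]
  rw [Finset.sum_add_distrib]
  simp

theorem isExpanding_of_good (hn : 4 ≤ n) (hk : 0 < k) (F : PW (Equiv.Perm (Fin n))) {ε : ℝ}
    (hε : 0 < ε) (x : Fin k → alternatingGroup (Fin n)) (hgood : Good F (tupW x) n ε) :
    IsExpanding ε x := by
  have hk' : (2 * (k : ℝ)) ≠ 0 := by positivity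
  have hc : ∀ f : alternatingGroup (Fin n) → ℝ, f ≠ 0 → ∑ g, f g = 0 → ∀ a : ℝ, 1 - ε < a →
      transition x *ᵥ f ≠ a • f := by
    intro f hf hs a ha hPf
    refine Pool.Agent.Helper6.E.eig_claim F x ε hgood f hf hs a ha fun g => ?_
    rw [← transition_mulVec, hPf]
    rfl
  constructor
  · by_contra hne
    set H := Subgroup.closure (Set.range x) with hH
    classical
    set c : ℝ := ((Finset.univ.filter fun g : alternatingGroup (Fin n) => g ∈ H).card : ℝ) /
      Fintype.card (alternatingGroup (Fin n)) with hcdef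
    have hGpos : (0 : ℝ) < Fintype.card (alternatingGroup (Fin n)) := by
      exact_mod_cast Fintype.card_pos
    have hcpos : 0 < c := by
      have : 0 < (Finset.univ.filter fun g : alternatingGroup (Fin n) => g ∈ H).card :=
        Finset.card_pos.2 ⟨1, by simp [H.one_mem]⟩
      have h1 : (0 : ℝ) <
          ((Finset.univ.filter fun g : alternatingGroup (Fin n) => g ∈ H).card : ℝ) := by
        exact_mod_cast this
      positivity
    obtain ⟨g0, hg0⟩ : ∃ g, g ∉ H := by
      by_contra hall
      push Not at hall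
      exact hne (eq_top_iff.2 fun g _ => hall g)
    have hmem : ∀ i, x i ∈ H := fun i => Subgroup.subset_closure ⟨i, rfl⟩
    refine hc (fun g => (if g ∈ H then (1 : ℝ) else 0) - c) ?_ ?_ 1 (by linarith) ?_
    · intro h
      have h1 := congrFun h g0
      simp only [if_neg hg0, Pi.zero_apply, zero_sub, neg_eq_zero] at h1
      exact hcpos.ne' h1
    · rw [Finset.sum_sub_distrib, Finset.sum_const, Finset.card_univ, nsmul_eq_mul, hcdef,
        mul_div_cancel₀ _ hGpos.ne', Finset.sum_boole, sub_self]
    · ext g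
      rw [transition_mulVec, one_smul]
      have h1 : ∀ i, ((if g * x i ∈ H then (1 : ℝ) else 0) - c) +
          ((if g * (x i)⁻¹ ∈ H then (1 : ℝ) else 0) - c) =
          2 * ((if g ∈ H then (1 : ℝ) else 0) - c) := by
        intro i
        have h2 : g * x i ∈ H ↔ g ∈ H := H.mul_mem_cancel_right (hmem i)
        have h3 : g * (x i)⁻¹ ∈ H ↔ g ∈ H := H.mul_mem_cancel_right (H.inv_mem (hmem i))
        simp only [h2, h3]
        ring
      simp_rw [h1]
      rw [Finset.sum_const, Finset.card_univ, Fintype.card_fin, nsmul_eq_mul]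
      field_simp
  · unfold secondEigenvalue
    have hcard : 1 < Fintype.card (alternatingGroup (Fin n)) := by
      have h1 : Nontrivial (Fin n) := Fin.nontrivial_iff_two_le.2 (by omega)
      have h2 := two_mul_card_alternatingGroup (α := Fin n)
      rw [Fintype.card_perm, Fintype.card_fin] at h2
      have h3 : 4 ≤ n.factorial := hn.trans (Nat.self_le_factorial n)
      omega
    rw [dif_pos hcard]
    have h1 := second_eig_le (transition x) (transition_isHermitian x) hcard (by
      ext g
      rw [transition_mulVec]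
      simp only [Finset.sum_const, Finset.card_univ, Fintype.card_fin, nsmul_eq_mul]
      field_simp
      norm_num) (1 - ε) hc
    linarith

/-- Spectral gap at least `ε` for all functions on `A_n` with at most `A` nonzero values:
`⟨f, P f⟩ ≤ (1 - ε) ⟨f, f⟩`.  In particular every set of at most `A` elements expands. -/
def SmallSupportGap (x : Fin k → alternatingGroup (Fin n)) (A ε : ℝ) : Prop :=
  ∀ f : alternatingGroup (Fin n) → ℝ,
    (Nat.card {g : alternatingGroup (Fin n) // f g ≠ 0} : ℝ) ≤ A →
    ∑ g, f g * (transition x *ᵥ f) g ≤ (1 - ε) * ∑ g, f g ^ 2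

/-- Every element of `A_n` is a product of at most `m` elements of the multiset
`x_1, x_1⁻¹, ..., x_k, x_k⁻¹`: the Cayley graph of `A_n` with respect to `x_1, ..., x_k` has
diameter at most `m`. -/
def DiameterAtMost (x : Fin k → alternatingGroup (Fin n)) (m : ℝ) : Prop :=
  ∀ g : alternatingGroup (Fin n), ∃ l : List (Fin k × Bool), (l.length : ℝ) ≤ m ∧
    (l.map fun p => if p.2 then x p.1 else (x p.1)⁻¹).prod = g

/-- Three properties of the Cayley graph of `A_n` with respect to `x_1, ..., x_k`. -/
def Profile (x : Fin k → alternatingGroup (Fin n)) (α ε δ : ℝ) : Prop :=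
  SmallSupportGap x (Real.exp ((n : ℝ) ^ α)) ε ∧
    DiameterAtMost x ((n : ℝ) ^ (1 + 2 / 3 * (1 / 2 : ℝ) ^ (k - 2) + δ)) ∧
    (3 ≤ k → IsExpanding ((n : ℝ) ^ (-(1 + 2 / 3 * (1 / 2 : ℝ) ^ (k - 3) + δ))) x)

theorem whp_le_one (p : (Fin k → alternatingGroup (Fin n)) → Prop) :
    (Nat.card {x // p x} : ℝ) / Nat.card (Fin k → alternatingGroup (Fin n)) ≤ 1 := by
  apply div_le_one_of_le₀ _ (Nat.cast_nonneg _)
  exact_mod_cast Nat.card_le_card_of_injective _ Subtype.val_injective

theorem whp_mono {p q : (Fin k → alternatingGroup (Fin n)) → Prop} (h : ∀ x, p x → q x) :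
    (Nat.card {x // p x} : ℝ) / Nat.card (Fin k → alternatingGroup (Fin n)) ≤
      (Nat.card {x // q x} : ℝ) / Nat.card (Fin k → alternatingGroup (Fin n)) := by
  refine div_le_div_of_nonneg_right ?_ (Nat.cast_nonneg _)
  refine Nat.cast_le.2 (Nat.card_le_card_of_injective (fun x => ⟨x.1, h _ x.2⟩) ?_)
  intro a b hab
  exact Subtype.ext (by simpa using congrArg Subtype.val hab)

theorem whp_and (p q : (Fin k → alternatingGroup (Fin n)) → Prop) :
    (Nat.card {x // p x} : ℝ) / Nat.card (Fin k → alternatingGroup (Fin n)) +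
      (Nat.card {x // q x} : ℝ) / Nat.card (Fin k → alternatingGroup (Fin n)) - 1 ≤
      (Nat.card {x // p x ∧ q x} : ℝ) / Nat.card (Fin k → alternatingGroup (Fin n)) := by
  classical
  have hc : (0 : ℝ) < Nat.card (Fin k → alternatingGroup (Fin n)) := by
    exact_mod_cast Nat.card_pos
  rw [← add_div, div_sub_one hc.ne']
  refine div_le_div_of_nonneg_right ?_ hc.le
  rw [Nat.card_eq_fintype_card, Nat.card_eq_fintype_card, Nat.card_eq_fintype_card,
    Nat.card_eq_fintype_card, Fintype.card_subtype, Fintype.card_subtype, Fintype.card_subtype,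
    ← Finset.card_univ]
  have h1 := Finset.card_union_add_card_inter
    (Finset.univ.filter fun x : Fin k → alternatingGroup (Fin n) => p x)
    (Finset.univ.filter fun x : Fin k → alternatingGroup (Fin n) => q x)
  have h2 : (Finset.univ.filter fun x : Fin k → alternatingGroup (Fin n) => p x) ∩
      (Finset.univ.filter fun x => q x) = Finset.univ.filter fun x => p x ∧ q x :=
    (Finset.filter_and _ _ _).symm
  rw [h2] at h1
  have h3 := Finset.card_le_univ ((Finset.univ.filter
    fun x : Fin k → alternatingGroup (Fin n) => p x) ∪ Finset.univ.filter fun x => q x)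
  rw [← Finset.card_univ] at h3
  have h4 : ((Finset.univ.filter fun x : Fin k → alternatingGroup (Fin n) => p x).card : ℝ) +
      (Finset.univ.filter fun x : Fin k → alternatingGroup (Fin n) => q x).card =
      (((Finset.univ.filter fun x : Fin k → alternatingGroup (Fin n) => p x) ∪
        Finset.univ.filter fun x => q x).card : ℝ) +
        (Finset.univ.filter fun x => p x ∧ q x).card := by exact_mod_cast h1.symm
  have h5 : (((Finset.univ.filter fun x : Fin k → alternatingGroup (Fin n) => p x) ∪
      Finset.univ.filter fun x => q x).card : ℝ) ≤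
      (Finset.univ : Finset (Fin k → alternatingGroup (Fin n))).card := by exact_mod_cast h3
  linarith

theorem tendsto_and (k : ℕ) (p q : ∀ n : ℕ, (Fin k → alternatingGroup (Fin n)) → Prop)
    (hp : Tendsto (fun n : ℕ => (Nat.card {x // p n x} : ℝ) /
      Nat.card (Fin k → alternatingGroup (Fin n))) atTop (𝓝 1))
    (hq : Tendsto (fun n : ℕ => (Nat.card {x // q n x} : ℝ) /
      Nat.card (Fin k → alternatingGroup (Fin n))) atTop (𝓝 1)) :
    Tendsto (fun n : ℕ => (Nat.card {x // p n x ∧ q n x} : ℝ) /
      Nat.card (Fin k → alternatingGroup (Fin n))) atTop (𝓝 1) := by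
  have h1 := (hp.add hq).sub_const 1
  rw [show (1 : ℝ) + 1 - 1 = 1 by norm_num] at h1
  exact tendsto_of_tendsto_of_tendsto_of_le_of_le h1 tendsto_const_nhds
    (fun n => whp_and _ _) (fun n => whp_le_one _)

/-- the part on the spectral gap -/
theorem gap_part (k : ℕ) (hk : 3 ≤ k) (δ : ℝ) (hδ : 0 < δ) :
    Tendsto (fun n : ℕ =>
      (Nat.card {x : Fin k → alternatingGroup (Fin n) //
        IsExpanding ((n : ℝ) ^ (-(1 + 2 / 3 * (1 / 2 : ℝ) ^ (k - 3) + δ))) x} : ℝ) /
        Nat.card (Fin k → alternatingGroup (Fin n))) atTop (𝓝 1) := by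
  refine tendsto_of_tendsto_of_tendsto_of_le_of_le'
    (Pool.Agent.Helper6.GP.gap_all Pool.Agent.Helper6.GP.fing k hk δ hδ) tendsto_const_nhds ?_
    (Eventually.of_forall fun n => whp_le_one _)
  filter_upwards [eventually_ge_atTop 4] with n hn
  have hnpos : (0 : ℝ) < n := by
    have : 0 < n := by omega
    exact_mod_cast this
  refine whp_mono fun x hx => ?_
  obtain ⟨F⟩ := exists_pw (Equiv.Perm (Fin n))
  exact isExpanding_of_good hn (by omega) F (Real.rpow_pos_of_pos hnpos _) x (hx F)

/-- For every `α < 1` there is `ε > 0` such that for every fixed `k ≥ 2` with `α < α_k`,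
`α_k = 1 - (2/3) / 2 ^ (k - 2)`, and every `δ > 0`, `k` independent uniformly random elements of
`A_n` have, with probability tending to one, all of the following properties.
(1) Constant expansion of small sets: `⟨f, P f⟩ ≤ (1 - ε) ⟨f, f⟩` for every function `f` on `A_n`
with at most `exp (n ^ α)` nonzero values.
(2) Every element of `A_n` is a product of at most `n ^ (1 + (2/3) (1/2)^(k-2) + δ)` of the given
elements and their inverses.
(3) If `k ≥ 3`, they generate `A_n` and the spectral gap of their random walk on `A_n` is at least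
`n ^ (-(1 + (2/3) (1/2)^(k-3) + δ))`. -/
theorem result (α : ℝ) (hα : α < 1) : ∃ ε : ℝ, 0 < ε ∧ ∀ k : ℕ, 2 ≤ k →
    α < 1 - 2 / 3 / 2 ^ (k - 2) → ∀ δ : ℝ, 0 < δ →
    Tendsto (fun n : ℕ =>
      (Nat.card {x : Fin k → alternatingGroup (Fin n) // Profile x α ε δ} : ℝ) /
        Nat.card (Fin k → alternatingGroup (Fin n))) atTop (𝓝 1) := by
  obtain ⟨ε, hε, h⟩ := Pool.Agent.Helper6.GP.small_uniform Pool.Agent.Helper6.GP.lzw_all α hα
  refine ⟨ε, hε, fun k hk hk' δ hδ => ?_⟩
  have h1 : Tendsto (fun n : ℕ => (Nat.card {x : Fin k → alternatingGroup (Fin n) //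
      SmallSupportGap x (Real.exp ((n : ℝ) ^ α)) ε} : ℝ) /
        Nat.card (Fin k → alternatingGroup (Fin n))) atTop (𝓝 1) := by
    refine tendsto_of_tendsto_of_tendsto_of_le_of_le (h k hk hk') tendsto_const_nhds ?_
      (fun n => whp_le_one _)
    intro n
    refine whp_mono fun x hx f hf => ?_
    have h2 := hx.2 f hf
    have h3 : ∀ g, (transition x *ᵥ f) g = Pool.Agent.Helper6.FixK.walk x f g := fun g =>
      transition_mulVec x f g
    simp_rw [h3]
    exact h2
  have h2 := Pool.Agent.Helper6.AK.diam_all k hk δ hδ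
  have h3 : Tendsto (fun n : ℕ => (Nat.card {x : Fin k → alternatingGroup (Fin n) //
      (3 ≤ k → IsExpanding ((n : ℝ) ^ (-(1 + 2 / 3 * (1 / 2 : ℝ) ^ (k - 3) + δ))) x)} : ℝ) /
        Nat.card (Fin k → alternatingGroup (Fin n))) atTop (𝓝 1) := by
    by_cases hk3 : 3 ≤ k
    · refine tendsto_of_tendsto_of_tendsto_of_le_of_le (gap_part k hk3 δ hδ) tendsto_const_nhds
        ?_ (fun n => whp_le_one _)
      intro n
      exact whp_mono fun x hx _ => hx
    · refine tendsto_const_nhds.congr fun n => ?_
      have hc : (Nat.card (Fin k → alternatingGroup (Fin n)) : ℝ) ≠ 0 := by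
        have : 0 < Nat.card (Fin k → alternatingGroup (Fin n)) := Nat.card_pos
        exact_mod_cast this.ne'
      have h4 : Nat.card {x : Fin k → alternatingGroup (Fin n) //
          (3 ≤ k → IsExpanding ((n : ℝ) ^ (-(1 + 2 / 3 * (1 / 2 : ℝ) ^ (k - 3) + δ))) x)} =
          Nat.card (Fin k → alternatingGroup (Fin n)) :=
        Nat.card_congr (Equiv.subtypeUnivEquiv fun x h => absurd h hk3)
      rw [h4, div_self hc]
  exact tendsto_and k _ _ h1 (tendsto_and k _ _ h2 h3)

end Pool.Agent.Results.MP_75608d_al.ExpansionProfile
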